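import Pool.Agent.P8H47.EC3.Stm
import Pool.Agent.Y469.EP.Max

/-! Package ROOT of the project EC3: the maximal `p`-extension is closed under `p`-th roots. -/

set_option autoImplicit false
set_option linter.style.haveILetI false

open IntermediateField Polynomial

namespace Pool.Agent.P8H48.EC3

open Pool.Agent.Y920.EP (Pw IsMaxP)
open Pool.Agent.Y469.EP

/-- adjoining finitely many `p`-th roots -/
theorem Tw_adjoin {L Ω : Type} [Field L] [Field Ω] [Algebra L Ω] [Normal L Ω] {p : ℕ}
    (hp : p.Prime) {ζ : L} (hζ : IsPrimitiveRoot ζ p) (s : Finset Ω)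
    (hs : ∀ β ∈ s, ∃ a : L, β ^ p = algebraMap L Ω a) :
    Tw p (IntermediateField.adjoin L (s : Set Ω)) := by
  classical
  induction s using Finset.induction_on with
  | empty =>
    rw [Finset.coe_empty, IntermediateField.adjoin_empty]
    exact Tw_bot p
  | insert β s _ ih =>
    rw [Finset.coe_insert, Set.insert_eq, IntermediateField.adjoin_union]
    obtain ⟨a, ha⟩ := hs β (Finset.mem_insert_self β s)
    exact Tw_sup hp (Tw_root hp hζ β a ha) (ih fun γ hγ => hs γ (Finset.mem_insert_of_mem hγ))

/-- **Package ROOT.** -/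
theorem root : Pool.Agent.P8H47.EC3.S_ROOT := by
  intro p hp F _ ⟨ζ, hζ⟩ K hK c
  -- a finite extension containing `c`
  obtain ⟨L, hL, hcL⟩ : ∃ L : IntermediateField F (AlgebraicClosure F), Tw p L ∧
      (c : AlgebraicClosure F) ∈ L := by
    obtain ⟨S, hS⟩ : ∃ S : Set (IntermediateField F (AlgebraicClosure F)), S = {L | Tw p L} :=
      ⟨_, rfl⟩
    have hK' : K = ⨆ L : S, L.1 := by
      rw [hK, hS, ← sSup_eq_iSup']
      rfl
    have hmem : ∀ L : IntermediateField F (AlgebraicClosure F), L ∈ S ↔ Tw p L := by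
      intro L
      rw [hS]
      rfl
    have hST : ∀ L : S, Tw p L.1 := fun L => (hmem _).1 L.2
    have hne : Nonempty S := ⟨⟨⊥, (hmem _).2 (Tw_bot p)⟩⟩
    have hdir : Directed (· ≤ ·) fun L : S => L.1 := by
      intro L₁ L₂
      refine ⟨⟨L₁.1 ⊔ L₂.1, ?_⟩, le_sup_left, le_sup_right⟩
      exact (hmem _).2 (Tw_sup hp (hST L₁) (hST L₂))
    have hx : (c : AlgebraicClosure F) ∈
        ((⨆ L : S, L.1 : IntermediateField F (AlgebraicClosure F)) : Set (AlgebraicClosure F)) := by
      rw [← hK']
      exact c.2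
    rw [IntermediateField.coe_iSup_of_directed hdir, Set.mem_iUnion] at hx
    obtain ⟨L, hxL⟩ := hx
    exact ⟨L.1, hST L, hxL⟩
  obtain ⟨f1, g1, k1, e1⟩ := hL
  haveI := f1
  haveI := g1
  have hnL : Normal F L := inferInstance
  haveI : Normal L (AlgebraicClosure F) := Normal.tower_top_of_normal F L _
  have hσL : ∀ (σ : AlgebraicClosure F →ₐ[F] AlgebraicClosure F), ∀ x ∈ L, σ x ∈ L := by
    intro σ x hx
    exact IntermediateField.normal_iff_forall_map_le.mp hnL σ ⟨x, hx, rfl⟩
  -- the `p`-th roots of the conjugates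
  let S : Set (AlgebraicClosure F) := {β | ∃ σ : AlgebraicClosure F →ₐ[F] AlgebraicClosure F,
    β ^ p = σ (c : AlgebraicClosure F)}
  have hint : IsIntegral F (c : AlgebraicClosure F) := Algebra.IsIntegral.isIntegral _
  have hSfin : S.Finite := by
    have hq : ((minpoly F (c : AlgebraicClosure F)).comp (X ^ p)) ≠ 0 := by
      intro h0
      rcases Polynomial.comp_eq_zero_iff.mp h0 with h1 | ⟨-, h1⟩
      · exact minpoly.ne_zero hint h1
      · have h2 := congrArg Polynomial.natDegree h1
        rw [Polynomial.natDegree_X_pow, Polynomial.natDegree_C] at h2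
        exact hp.ne_zero h2
    refine (Polynomial.rootSet_finite ((minpoly F (c : AlgebraicClosure F)).comp (X ^ p))
      (AlgebraicClosure F)).subset ?_
    rintro β ⟨σ, hσ⟩
    rw [Polynomial.mem_rootSet_of_ne hq, Polynomial.aeval_comp, map_pow, Polynomial.aeval_X, hσ,
      Polynomial.aeval_algHom_apply, minpoly.aeval, map_zero]
  have hζL : IsPrimitiveRoot (algebraMap F L ζ) p :=
    hζ.map_of_injective (algebraMap F L).injective
  have hTw : Tw p (IntermediateField.adjoin L S) := by
    have h1 := Tw_adjoin hp hζL hSfin.toFinset (by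
      intro β hβ
      rw [Set.Finite.mem_toFinset] at hβ
      obtain ⟨σ, hσ⟩ := hβ
      exact ⟨⟨σ c, hσL σ c hcL⟩, hσ⟩)
    rwa [Set.Finite.coe_toFinset] at h1
  obtain ⟨f2, g2, k2, e2⟩ := hTw
  let M : IntermediateField F (AlgebraicClosure F) :=
    (IntermediateField.adjoin L S).restrictScalars F
  have hM : Tw p M := by
    haveI := f2
    haveI := g2
    have hfd : FiniteDimensional F (IntermediateField.adjoin L S) :=
      Module.Finite.trans L _
    have hsep : Algebra.IsSeparable F (IntermediateField.adjoin L S) :=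
      Algebra.IsSeparable.trans F L _
    have hfdM : FiniteDimensional F M := hfd
    have hsepM : Algebra.IsSeparable F M := hsep
    have hnor : Normal F M := by
      rw [IntermediateField.normal_iff_forall_map_le]
      intro σ
      change (IntermediateField.restrictScalars F (IntermediateField.adjoin L S)).map σ ≤
        IntermediateField.restrictScalars F (IntermediateField.adjoin L S)
      rw [IntermediateField.restrictScalars_adjoin, IntermediateField.adjoin_map,
        IntermediateField.adjoin_le_iff]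
      rintro _ ⟨x, hx | ⟨τ, hτ⟩, rfl⟩
      · exact IntermediateField.subset_adjoin F _ (Or.inl (hσL σ x hx))
      · refine IntermediateField.subset_adjoin F _ (Or.inr ⟨σ.comp τ, ?_⟩)
        rw [← map_pow, hτ]
        rfl
    refine ⟨hfdM, { to_isSeparable := hsepM, to_normal := hnor }, k1 + k2, ?_⟩
    have h1 := Module.finrank_mul_finrank F L (IntermediateField.adjoin L S)
    rw [e1, e2, ← pow_add] at h1
    exact h1.symm
  have hMK : M ≤ K := by
    rw [hK]
    exact le_sSup hM
  obtain ⟨y, hy⟩ := IsAlgClosed.exists_pow_nat_eq (c : AlgebraicClosure F) (n := p) hp.pos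
  have hyM : y ∈ M := by
    change y ∈ IntermediateField.adjoin L S
    exact IntermediateField.subset_adjoin L S ⟨AlgHom.id F _, hy⟩
  exact ⟨⟨y, hMK hyM⟩, Subtype.ext hy⟩

end Pool.Agent.P8H48.EC3
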