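import Pool.Agent.P8H47.EC3.Stm
import Pool.Agent.Y469.EP.Max
import Pool.Agent.Y925.EP.Tower
import Pool.Agent.Y279.EP.Up
import Pool.Agent.Y86.EP.Kum

/-! Package UNIQ of the project EC3: uniqueness of the extension of a valuation ring to `K = F(p)`. -/

set_option autoImplicit false
set_option linter.style.haveILetI false

open IntermediateField

namespace Pool.Agent.P8H48.EC3

open Pool.Agent.Y920.EP (Pw IsMaxP)
open Pool.Agent.Y469.EP (finrank_eq_index)

/-- the compositum of a finite Galois extension of `p`-power degree with an intermediate field -/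
theorem tower {F K : Type} [Field F] [Field K] [Algebra F K] [IsGalois F K] {p : ℕ} (hp : p.Prime)
    (E L : IntermediateField F K) (hfd : FiniteDimensional F L) (hgal : IsGalois F L) {k : ℕ}
    (hk : Module.finrank F L = p ^ k) :
    ∃ L' : IntermediateField E K, (∀ x ∈ L, x ∈ L') ∧ FiniteDimensional E L' ∧ IsGalois E L' ∧
      ∃ j : ℕ, Module.finrank E L' = p ^ j := by
  haveI : IsGalois E K := IsGalois.tower_top_intermediateField E
  haveI := hfd
  haveI := hgal
  obtain ⟨α, hα⟩ := Field.exists_primitive_element F L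
  have hL : F⟮(α : K)⟯ = L := by
    have h1 := congrArg (IntermediateField.map L.val) hα
    rw [IntermediateField.adjoin_map, ← AlgHom.fieldRange_eq_map, IntermediateField.fieldRange_val,
      Set.image_singleton] at h1
    exact h1
  let L' : IntermediateField E K := E⟮(α : K)⟯
  have hLL : ∀ x ∈ L, x ∈ L' := by
    intro x hx
    rw [← hL] at hx
    have h1 : F⟮(α : K)⟯ ≤ L'.restrictScalars F := by
      rw [IntermediateField.adjoin_simple_le_iff, IntermediateField.mem_restrictScalars]
      exact IntermediateField.mem_adjoin_simple_self E (α : K)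
    exact h1 hx
  haveI hfin : FiniteDimensional E L' := IntermediateField.adjoin.finiteDimensional
    (Algebra.IsIntegral.isIntegral (α : K))
  -- automorphisms
  let f : (K ≃ₐ[E] K) →* (K ≃ₐ[F] K) := AlgEquiv.restrictScalarsHom F
  have hfix : L'.fixingSubgroup = L.fixingSubgroup.comap f := by
    ext σ
    rw [Subgroup.mem_comap, IntermediateField.mem_fixingSubgroup_iff,
      IntermediateField.mem_fixingSubgroup_iff]
    constructor
    · intro h x hx
      exact h x (hLL x hx)
    · intro h x hx
      induction hx using IntermediateField.adjoin_induction with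
      | mem y hy =>
        rw [Set.mem_singleton_iff.mp hy]
        exact h α α.2
      | algebraMap y => exact σ.commutes y
      | add a b _ _ ha hb =>
        rw [map_add, ha, hb]
      | inv a _ ha =>
        rw [map_inv₀, ha]
      | mul a b _ _ ha hb =>
        rw [map_mul, ha, hb]
  haveI : L.fixingSubgroup.Normal := by
    rw [← IntermediateField.restrictNormalHom_ker L]
    infer_instance
  haveI hgal' : IsGalois E L' := by
    rw [← InfiniteGalois.normal_iff_isGalois, hfix]
    infer_instance
  refine ⟨L', hLL, hfin, hgal', ?_⟩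
  have h1 : Module.finrank E L' ∣ p ^ k := by
    rw [finrank_eq_index, hfix, Subgroup.index_comap, ← hk, finrank_eq_index]
    exact Subgroup.relIndex_dvd_index_of_normal _ _
  obtain ⟨j, _, hj⟩ := (Nat.dvd_prime_pow hp).1 h1
  exact ⟨j, hj⟩

/-- **Package UNIQ.** -/
theorem uniq : Pool.Agent.P8H47.EC3.S_UNIQ := by
  intro p hp hp2 F _ hζ K hK E O hO σ x
  obtain ⟨hG, hL, -⟩ := Pool.Agent.Y469.EP.t_MAX' p hp F hζ K hK
  haveI := hG
  obtain ⟨L, hxL, hfd, hgal, k, hk⟩ := hL x
  obtain ⟨L', hLL, hfd', hgal', j, hj⟩ := tower hp E L hfd hgal hk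
  haveI := hfd'
  haveI := hgal'
  have hζE : ∃ ζ : E, IsPrimitiveRoot ζ p := by
    obtain ⟨ζ, h⟩ := hζ
    exact ⟨_, h.map_of_injective (algebraMap F E).injective⟩
  let O₂ : ValuationSubring K := O.comap (σ : K →+* K)
  have h1 : (O.comap (algebraMap L' K)).comap (algebraMap E L') = O.comap (algebraMap E K) := by
    ext f
    rw [ValuationSubring.mem_comap, ValuationSubring.mem_comap, ValuationSubring.mem_comap]
    rfl
  have h3 : (O₂.comap (algebraMap L' K)).comap (algebraMap E L') = O.comap (algebraMap E K) := by
    ext f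
    rw [ValuationSubring.mem_comap, ValuationSubring.mem_comap, ValuationSubring.mem_comap,
      ValuationSubring.mem_comap]
    have : (σ : K →+* K) (algebraMap L' K (algebraMap E L' f)) = algebraMap E K f := σ.commutes f
    rw [this]
  have h4 := Pool.Agent.Y925.EP.t_TOWER' Pool.Agent.Y86.EP.t_KUM Pool.Agent.Y279.EP.t_UP p hp hp2 j
    E L' hζE hj (O.comap (algebraMap E K)) hO _ _ h1 h3
  have h5 : (⟨x, hLL x hxL⟩ : L') ∈ O.comap (algebraMap L' K) ↔
      (⟨x, hLL x hxL⟩ : L') ∈ O₂.comap (algebraMap L' K) := by rw [h4]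
  rw [ValuationSubring.mem_comap, ValuationSubring.mem_comap, ValuationSubring.mem_comap] at h5
  exact h5.symm

end Pool.Agent.P8H48.EC3
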